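import Pool.Agent.helper55.NM.Spec3

set_option autoImplicit false

namespace Pool.Agent.helper85.NM

open Pool.Agent.NM Pool.Agent.helper72.UP Finset Nat

theorem PM4_rec (b a : ℕ) (ρ : ℝ) :
    ((b + 1).choose (a + 1) : ℝ) * (ρ ^ (a + 1) * (1 - ρ) ^ (b + 1 - (a + 1))) =
      ρ * ((b.choose a : ℝ) * (ρ ^ a * (1 - ρ) ^ (b - a))) +
      (1 - ρ) * ((b.choose (a + 1) : ℝ) * (ρ ^ (a + 1) * (1 - ρ) ^ (b - (a + 1)))) := by
  have h1 : b + 1 - (a + 1) = b - a := by omega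
  rw [h1, Nat.choose_succ_succ]
  push_cast
  rcases Nat.lt_or_ge b (a + 1) with h | h
  · have h2 : b.choose (a + 1) = 0 := Nat.choose_eq_zero_of_lt h
    rw [h2]
    push_cast
    ring
  · have h3 : b - a = (b - (a + 1)) + 1 := by omega
    rw [h3]
    ring

theorem PM4_all (ρ : ℝ) (h1 : 1 / 3 ≤ ρ) (h2 : ρ ≤ 1 / 2) (b : ℕ) (hb : 4 ≤ b) :
    ∀ a, 1 ≤ a → (b.choose a : ℝ) * (ρ ^ a * (1 - ρ) ^ (b - a)) ≤ 8 / 9 * (2 * ρ * (1 - ρ)) := by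
  have hρ0 : 0 ≤ ρ := by linarith
  have hσ0 : 0 ≤ 1 - ρ := by linarith
  have hσ1 : 1 - ρ ≤ 2 / 3 := by linarith
  have hρσ : 0 ≤ ρ * (1 - ρ) := mul_nonneg hρ0 hσ0
  have hρσ4 : ρ * (1 - ρ) ≤ 1 / 4 := by nlinarith [sq_nonneg (ρ - 1 / 2)]
  have hρσ2 : 2 / 9 ≤ ρ * (1 - ρ) := by nlinarith
  have hK : 0 ≤ 8 / 9 * (2 * ρ * (1 - ρ)) := by nlinarith
  induction b, hb using Nat.le_induction with
  | base =>
    intro a ha
    rcases Nat.lt_or_ge 4 a with h | h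
    · rw [Nat.choose_eq_zero_of_lt h]
      simpa using hK
    · have e : a = 1 ∨ a = 2 ∨ a = 3 ∨ a = 4 := by omega
      rcases e with rfl | rfl | rfl | rfl
      · have c1 : (Nat.choose 4 1 : ℝ) = 4 := by norm_num [Nat.choose]
        have hs : (1 - ρ) ^ 2 ≤ 4 / 9 := by nlinarith
        have e1 : (4 : ℝ) * (ρ ^ 1 * (1 - ρ) ^ (4 - 1)) = 4 * (ρ * (1 - ρ)) * (1 - ρ) ^ 2 := by
          norm_num
          ring
        rw [c1, e1]
        nlinarith [mul_le_mul_of_nonneg_left hs hρσ]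
      · have c1 : (Nat.choose 4 2 : ℝ) = 6 := by norm_num [Nat.choose]
        have e1 : (6 : ℝ) * (ρ ^ 2 * (1 - ρ) ^ (4 - 2)) = 6 * (ρ * (1 - ρ)) * (ρ * (1 - ρ)) := by
          norm_num
          ring
        rw [c1, e1]
        nlinarith [mul_le_mul_of_nonneg_left hρσ4 hρσ]
      · have c1 : (Nat.choose 4 3 : ℝ) = 4 := by norm_num [Nat.choose]
        have hs : ρ ^ 2 ≤ 1 / 4 := by nlinarith
        have e1 : (4 : ℝ) * (ρ ^ 3 * (1 - ρ) ^ (4 - 3)) = 4 * (ρ * (1 - ρ)) * ρ ^ 2 := by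
          norm_num
          ring
        rw [c1, e1]
        nlinarith [mul_le_mul_of_nonneg_left hs hρσ]
      · have c1 : (Nat.choose 4 4 : ℝ) = 1 := by norm_num [Nat.choose]
        have hs : ρ ^ 2 ≤ 1 / 4 := by nlinarith
        have hs4 : ρ ^ 4 ≤ 1 / 16 := by nlinarith [sq_nonneg ρ]
        have e1 : (1 : ℝ) * (ρ ^ 4 * (1 - ρ) ^ (4 - 4)) = ρ ^ 4 := by
          norm_num
        rw [c1, e1]
        nlinarith
  | succ b hb ih =>
    intro a ha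
    obtain ⟨a, rfl⟩ : ∃ a', a = a' + 1 := ⟨a - 1, by omega⟩
    rw [PM4_rec]
    have hA := ih (a + 1) (by omega)
    have hB : (b.choose a : ℝ) * (ρ ^ a * (1 - ρ) ^ (b - a)) ≤ 8 / 9 * (2 * ρ * (1 - ρ)) := by
      rcases Nat.eq_zero_or_pos a with h0 | h0
      · subst h0
        simp only [Nat.choose_zero_right, Nat.cast_one, pow_zero, one_mul, Nat.sub_zero]
        have h4 : (1 - ρ) ^ b ≤ (1 - ρ) ^ 4 := pow_le_pow_of_le_one hσ0 (by linarith) hb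
        have hs : (1 - ρ) ^ 2 ≤ 4 / 9 := by nlinarith
        have hs4 : (1 - ρ) ^ 4 ≤ 16 / 81 := by nlinarith [sq_nonneg (1 - ρ)]
        nlinarith
      · exact ih a h0
    calc ρ * ((b.choose a : ℝ) * (ρ ^ a * (1 - ρ) ^ (b - a))) +
      (1 - ρ) * ((b.choose (a + 1) : ℝ) * (ρ ^ (a + 1) * (1 - ρ) ^ (b - (a + 1))))
        ≤ ρ * (8 / 9 * (2 * ρ * (1 - ρ))) + (1 - ρ) * (8 / 9 * (2 * ρ * (1 - ρ))) :=
          add_le_add (mul_le_mul_of_nonneg_left hB hρ0) (mul_le_mul_of_nonneg_left hA hσ0)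
      _ = 8 / 9 * (2 * ρ * (1 - ρ)) := by ring

/-- Row PM4. -/
theorem PM4 : PM4_stmt := by
  intro b a ρ hb ha _ h1 h2
  exact PM4_all ρ h1 h2 b hb a ha

end Pool.Agent.helper85.NM
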